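import Mathlib

/-!
Existence of a good nonexpansive retraction onto the fixed point set of a real analytic
nonexpansive self-map of a finite dimensional real normed space.
-/

set_option autoImplicit false

namespace Pool.Agent.Lib.MP_769694_an

open Filter Topology Set

variable {X : Type*} [NormedAddCommGroup X] [NormedSpace ℝ X]

/-- `φ` is a norming functional of `v`. -/
def Norming (φ : X →L[ℝ] ℝ) (v : X) : Prop := ‖φ‖ ≤ 1 ∧ φ v = ‖v‖

lemma exists_norming (v : X) : ∃ φ : X →L[ℝ] ℝ, Norming φ v := by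
  obtain ⟨g, hg, hgv⟩ := exists_dual_vector'' ℝ v
  exact ⟨g, hg, by simpa using hgv⟩

lemma le_norm_of_norm_le_one {φ : X →L[ℝ] ℝ} (h : ‖φ‖ ≤ 1) (v : X) : φ v ≤ ‖v‖ := by
  calc φ v ≤ ‖φ v‖ := le_abs_self _
    _ ≤ ‖φ‖ * ‖v‖ := φ.le_opNorm v
    _ ≤ 1 * ‖v‖ := by gcongr
    _ = ‖v‖ := one_mul _

/-- The abstract property of the retraction used in the argument. -/
structure Good (r : X → X) : Prop where
  lip : ∀ x y, ‖r x - r y‖ ≤ ‖x - y‖
  idem : ∀ x, r (r x) = r x
  line : ∀ x y, r x = x → r y = y → ∀ φ : X →L[ℝ] ℝ, Norming φ (x - y) →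
    ∀ s : ℝ, φ (r (y + s • (x - y))) = φ (y + s • (x - y))

/-- The semigroup of analytic nonexpansive maps that fix every fixed point of `f`. -/
def Sg (f : X → X) : Set (X → X) :=
  {h | (∀ x, AnalyticAt ℝ h x) ∧ (∀ x y, ‖h x - h y‖ ≤ ‖x - y‖) ∧ ∀ x, f x = x → h x = x}

section line

lemma line_of_analytic {h : X → X} (ha : ∀ x, AnalyticAt ℝ h x)
    (hn : ∀ x y, ‖h x - h y‖ ≤ ‖x - y‖) {x y : X} (hx : h x = x) (hy : h y = y)
    {φ : X →L[ℝ] ℝ} (hφ : Norming φ (x - y)) (s : ℝ) :
    φ (h (y + s • (x - y))) = φ (y + s • (x - y)) := by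
  set g : ℝ → ℝ := fun s => φ (h (y + s • (x - y))) - φ (y + s • (x - y)) with hg
  have hlin : ∀ s : ℝ, AnalyticAt ℝ (fun s : ℝ => y + s • (x - y)) s := by
    intro s
    exact analyticAt_const.add (analyticAt_id.smul analyticAt_const)
  have hgan : AnalyticOnNhd ℝ g univ := by
    intro s _
    refine AnalyticAt.sub ?_ ?_
    · exact (φ.analyticAt _).comp ((ha _).fun_comp (hlin s))
    · exact (φ.analyticAt _).comp (hlin s)
  have hzero : ∀ s ∈ Icc (0:ℝ) 1, g s = 0 := by
    intro s hs
    have h0 : φ x - φ y = ‖x - y‖ := by rw [← map_sub]; exact hφ.2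
    set p := y + s • (x - y) with hp
    have h1 : φ x - φ (h p) ≤ (1 - s) * ‖x - y‖ := by
      calc φ x - φ (h p) = φ (h x - h p) := by rw [map_sub, hx]
        _ ≤ ‖h x - h p‖ := le_norm_of_norm_le_one hφ.1 _
        _ ≤ ‖x - p‖ := hn _ _
        _ = ‖(1 - s) • (x - y)‖ := by
            congr 1
            rw [hp, sub_smul, one_smul]; abel
        _ = (1 - s) * ‖x - y‖ := by
            rw [norm_smul, Real.norm_eq_abs, abs_of_nonneg (by linarith [hs.2])]
    have h2 : φ (h p) - φ y ≤ s * ‖x - y‖ := by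
      calc φ (h p) - φ y = φ (h p - h y) := by rw [map_sub, hy]
        _ ≤ ‖h p - h y‖ := le_norm_of_norm_le_one hφ.1 _
        _ ≤ ‖p - y‖ := hn _ _
        _ = ‖s • (x - y)‖ := by congr 1; rw [hp]; abel
        _ = s * ‖x - y‖ := by rw [norm_smul, Real.norm_eq_abs, abs_of_nonneg hs.1]
    have h3 : φ p = φ y + s * ‖x - y‖ := by
      rw [hp, map_add, map_smul, hφ.2]; rfl
    have h4 : φ (h p) - φ p = 0 := by linarith
    exact h4
  have hev : g =ᶠ[𝓝 (1/2 : ℝ)] 0 := by
    filter_upwards [Icc_mem_nhds (show (0:ℝ) < 1/2 by norm_num) (show (1/2:ℝ) < 1 by norm_num)]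
      with s hs
    exact hzero s hs
  have := hgan.eqOn_zero_of_preconnected_of_eventuallyEq_zero isPreconnected_univ
    (mem_univ (1/2:ℝ)) hev (mem_univ s)
  simp only [hg, Pi.zero_apply] at this
  linarith

end line

section closureProps

variable {f : X → X}

lemma Sg.comp_mem {h k : X → X} (hh : h ∈ Sg f) (hk : k ∈ Sg f) : h ∘ k ∈ Sg f := by
  refine ⟨fun x => (hh.1 _).fun_comp (hk.1 x), fun x y => ?_, fun x hx => ?_⟩
  · exact (hh.2.1 _ _).trans (hk.2.1 _ _)
  · simp [hk.2.2 x hx, hh.2.2 x hx]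

lemma closure_comp_mem {h k : X → X} (hh : h ∈ closure (Sg f)) (hk : k ∈ closure (Sg f)) :
    h ∘ k ∈ closure (Sg f) := by
  have step1 : ∀ h ∈ Sg f, ∀ k ∈ closure (Sg f), h ∘ k ∈ closure (Sg f) := by
    intro h hh k hk
    have hc : Continuous h := by
      rw [continuous_iff_continuousAt]; exact fun x => (hh.1 x).continuousAt
    have hcont : Continuous (fun k : X → X => h ∘ k) := by
      refine continuous_pi fun x => ?_
      exact hc.comp (continuous_apply x)
    have hmaps : MapsTo (fun k : X → X => h ∘ k) (Sg f) (Sg f) := fun k hk => Sg.comp_mem hh hk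
    exact hmaps.closure hcont hk
  have hcont : Continuous (fun h : X → X => h ∘ k) := by
    refine continuous_pi fun x => ?_
    exact continuous_apply (k x)
  have hmaps : MapsTo (fun h : X → X => h ∘ k) (Sg f) (closure (Sg f)) :=
    fun h hh => step1 h hh k hk
  have := hmaps.closure hcont hh
  rwa [closure_closure] at this

lemma convex_Sg : Convex ℝ (Sg f) := by
  intro h hh k hk a b ha hb hab
  refine ⟨fun x => ?_, fun x y => ?_, fun x hx => ?_⟩
  · exact (analyticAt_const.smul (hh.1 x)).add (analyticAt_const.smul (hk.1 x))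
  · calc ‖(a • h + b • k) x - (a • h + b • k) y‖
        = ‖a • (h x - h y) + b • (k x - k y)‖ := by
          congr 1
          simp only [Pi.add_apply, Pi.smul_apply, smul_sub]; abel
      _ ≤ ‖a • (h x - h y)‖ + ‖b • (k x - k y)‖ := norm_add_le _ _
      _ = a * ‖h x - h y‖ + b * ‖k x - k y‖ := by
          rw [norm_smul, norm_smul, Real.norm_eq_abs, Real.norm_eq_abs, abs_of_nonneg ha,
            abs_of_nonneg hb]
      _ ≤ a * ‖x - y‖ + b * ‖x - y‖ := by
          gcongr
          · exact hh.2.1 x y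
          · exact hk.2.1 x y
      _ = ‖x - y‖ := by rw [← add_mul, hab, one_mul]
  · simp only [Pi.add_apply, Pi.smul_apply, hh.2.2 x hx, hk.2.2 x hx]
    rw [← add_smul, hab, one_smul]

lemma closure_lip {h : X → X} (hh : h ∈ closure (Sg f)) (x y : X) : ‖h x - h y‖ ≤ ‖x - y‖ := by
  have hcl : IsClosed {h : X → X | ‖h x - h y‖ ≤ ‖x - y‖} :=
    isClosed_le (((continuous_apply x).sub (continuous_apply y)).norm) continuous_const
  exact closure_minimal (fun h hh => hh.2.1 x y) hcl hh

lemma closure_fix {h : X → X} (hh : h ∈ closure (Sg f)) (x : X) (hx : f x = x) : h x = x := by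
  have hcl : IsClosed {h : X → X | h x = x} :=
    isClosed_eq (continuous_apply x) continuous_const
  exact closure_minimal (fun h hh => hh.2.2 x hx) hcl hh

lemma closure_line {h : X → X} (hh : h ∈ closure (Sg f)) {x y : X} (hx : f x = x)
    (hy : f y = y) {φ : X →L[ℝ] ℝ} (hφ : Norming φ (x - y)) (s : ℝ) :
    φ (h (y + s • (x - y))) = φ (y + s • (x - y)) := by
  have hcl : IsClosed {h : X → X | φ (h (y + s • (x - y))) = φ (y + s • (x - y))} :=
    isClosed_eq (φ.continuous.comp (continuous_apply _)) continuous_const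
  exact closure_minimal
    (fun h hh => line_of_analytic hh.1 hh.2.1 (hh.2.2 x hx) (hh.2.2 y hy) hφ s) hcl hh

lemma isCompact_closure_Sg [ProperSpace X] {v₀ : X} (hv₀ : f v₀ = v₀) :
    IsCompact (closure (Sg f)) := by
  have hK : IsCompact (Set.pi univ (fun z : X => Metric.closedBall v₀ ‖z - v₀‖)) :=
    isCompact_univ_pi fun z => isCompact_closedBall _ _
  refine hK.of_isClosed_subset isClosed_closure ?_
  intro h hh z _
  rw [Metric.mem_closedBall, dist_eq_norm]
  calc ‖h z - v₀‖ = ‖h z - h v₀‖ := by rw [closure_fix hh v₀ hv₀]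
    _ ≤ ‖z - v₀‖ := closure_lip hh _ _

end closureProps

section fixpoint

/-- A nonexpansive self-map of a nonempty compact convex set has a fixed point. -/
lemma exists_fixed_of_compact_convex {O : Set X} (hO : IsCompact O) (hconv : Convex ℝ O)
    (hne : O.Nonempty) {f : X → X} (hf : MapsTo f O O) (hn : ∀ x y, ‖f x - f y‖ ≤ ‖x - y‖) :
    ∃ w ∈ O, f w = w := by
  obtain ⟨c, hc⟩ := hne
  have hfc : Continuous f := by
    have : LipschitzWith 1 f := LipschitzWith.of_dist_le_mul fun x y => by
      simpa [dist_eq_norm] using hn x y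
    exact this.continuous
  obtain ⟨w₀, hw₀, hmin⟩ := hO.exists_isMinOn ⟨c, hc⟩
    ((hfc.sub continuous_id).norm.continuousOn (s := O))
  obtain ⟨D, hD⟩ := hO.isBounded.exists_norm_le
  have hD0 : 0 ≤ D := (norm_nonneg _).trans (hD c hc)
  have key : ∀ ε : ℝ, 0 < ε → ε < 1 → ‖f w₀ - w₀‖ ≤ ε * (2 * D) := by
    intro ε hε hε1
    set g : X → X := fun w => (1 - ε) • f w + ε • c with hg
    have hgO : MapsTo g O O := fun w hw =>
      hconv (hf hw) hc (by linarith) hε.le (by ring)
    have hcontr : ContractingWith (Real.toNNReal (1 - ε)) (MapsTo.restrict g O O hgO) := by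
      refine ⟨?_, ?_⟩
      · rw [Real.toNNReal_lt_one]; linarith
      · refine LipschitzWith.of_dist_le_mul fun x y => ?_
        rw [Subtype.dist_eq, Subtype.dist_eq, dist_eq_norm, dist_eq_norm,
          Real.coe_toNNReal _ (by linarith)]
        simp only [MapsTo.val_restrict_apply, hg]
        calc ‖(1 - ε) • f ↑x + ε • c - ((1 - ε) • f ↑y + ε • c)‖
            = ‖(1 - ε) • (f ↑x - f ↑y)‖ := by
              congr 1; rw [smul_sub]; abel
          _ = (1 - ε) * ‖f ↑x - f ↑y‖ := by
              rw [norm_smul, Real.norm_eq_abs, abs_of_nonneg (by linarith)]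
          _ ≤ (1 - ε) * ‖(x : X) - y‖ := by
              have := hn x y
              have h1 : 0 ≤ 1 - ε := by linarith
              gcongr
    obtain ⟨w, hw, hfix, -, -⟩ := hcontr.exists_fixedPoint' hO.isComplete hgO hc
      (edist_ne_top _ _)
    have hwfix : (1 - ε) • f w + ε • c = w := hfix
    have h1 : f w - w = ε • (f w - c) := by
      have : w = (1 - ε) • f w + ε • c := hwfix.symm
      calc f w - w = f w - ((1 - ε) • f w + ε • c) := by rw [← this]
        _ = ε • (f w - c) := by rw [sub_smul, one_smul, smul_sub]; abel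
    have h2 : ‖f w - w‖ ≤ ε * (2 * D) := by
      rw [h1, norm_smul, Real.norm_eq_abs, abs_of_pos hε]
      have : ‖f w - c‖ ≤ 2 * D := by
        calc ‖f w - c‖ ≤ ‖f w‖ + ‖c‖ := norm_sub_le _ _
          _ ≤ D + D := add_le_add (hD _ (hf hw)) (hD _ hc)
          _ = 2 * D := by ring
      gcongr
    have h3 : ‖f w₀ - w₀‖ ≤ ‖f w - w‖ := hmin hw
    exact h3.trans h2
  refine ⟨w₀, hw₀, ?_⟩
  have hle : ‖f w₀ - w₀‖ ≤ 0 := by
    by_contra hcon
    push Not at hcon
    set δ := ‖f w₀ - w₀‖ with hδ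
    have hpos : 0 < 2 * D + δ + 1 := by linarith
    set ε := min (1/2) (δ / (2 * (2 * D + δ + 1))) with hε
    have hε0 : 0 < ε := by
      rw [hε]; exact lt_min (by norm_num) (by positivity)
    have hε1 : ε < 1 := lt_of_le_of_lt (min_le_left _ _) (by norm_num)
    have := key ε hε0 hε1
    have h4 : ε * (2 * D) ≤ δ / (2 * (2 * D + δ + 1)) * (2 * D + δ + 1) := by
      have h5 : ε ≤ δ / (2 * (2 * D + δ + 1)) := min_le_right _ _
      have h6 : 2 * D ≤ 2 * D + δ + 1 := by linarith
      exact mul_le_mul h5 h6 (by linarith) (by positivity)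
    have h7 : δ / (2 * (2 * D + δ + 1)) * (2 * D + δ + 1) = δ / 2 := by
      field_simp
    linarith
  have : f w₀ - w₀ = 0 := by
    rw [← norm_le_zero_iff]; exact hle
  exact sub_eq_zero.mp this

end fixpoint

/-- Existence of the good retraction. -/
theorem exists_good [ProperSpace X] {f : X → X} (ha : ∀ x, AnalyticAt ℝ f x)
    (hn : ∀ x y, ‖f x - f y‖ ≤ ‖x - y‖) (hne : ∃ v, f v = v) :
    ∃ r : X → X, Good r ∧ ∀ z, r z = z ↔ f z = z := by
  obtain ⟨v₀, hv₀⟩ := hne
  have hcomp := isCompact_closure_Sg hv₀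
  have hfmem : f ∈ Sg f := ⟨ha, hn, fun x hx => hx⟩
  have hfc : Continuous f := by
    rw [continuous_iff_continuousAt]; exact fun x => (ha x).continuousAt
  have hpt : ∀ z : X, ∃ h ∈ closure (Sg f), f (h z) = h z := by
    intro z
    set O : Set X := (fun h : X → X => h z) '' closure (Sg f) with hO
    have hOc : IsCompact O := hcomp.image (continuous_apply z)
    have hOconv : Convex ℝ O := by
      have : Convex ℝ (closure (Sg f)) := convex_Sg.closure
      exact this.is_linear_image (f := fun h : X → X => h z) ⟨fun _ _ => rfl, fun _ _ => rfl⟩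
    have hOne : O.Nonempty := ⟨f z, f, subset_closure hfmem, rfl⟩
    have hOf : MapsTo f O O := by
      rintro _ ⟨h, hh, rfl⟩
      exact ⟨f ∘ h, closure_comp_mem (subset_closure hfmem) hh, rfl⟩
    obtain ⟨w, ⟨h, hh, rfl⟩, hw⟩ := exists_fixed_of_compact_convex hOc hOconv hOne hOf hn
    exact ⟨h, hh, hw⟩
  have hfin : ∀ u : Finset X, ∃ h ∈ closure (Sg f), ∀ z ∈ u, f (h z) = h z := by
    intro u
    classical
    induction u using Finset.induction_on with
    | empty => exact ⟨f, subset_closure hfmem, by simp⟩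
    | insert a s _ ih =>
      obtain ⟨h, hh, hs⟩ := ih
      obtain ⟨k, hk, hkz⟩ := hpt (h a)
      refine ⟨k ∘ h, closure_comp_mem hk hh, ?_⟩
      intro z hz
      rcases Finset.mem_insert.mp hz with rfl | hz
      · exact hkz
      · have h1 := hs z hz
        have h2 : k (h z) = h z := closure_fix hk _ h1
        simp only [Function.comp_apply, h2, h1]
  have hclosed : ∀ z : X, IsClosed {h : X → X | f (h z) = h z} := fun z =>
    isClosed_eq (hfc.comp (continuous_apply z)) (continuous_apply z)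
  obtain ⟨r, hr, hr2⟩ := hcomp.inter_iInter_nonempty
    (fun z : X => {h : X → X | f (h z) = h z}) hclosed (by
      intro u
      obtain ⟨h, hh, hu⟩ := hfin u
      refine ⟨h, hh, ?_⟩
      simpa using hu)
  have hrV : ∀ z, f (r z) = r z := by
    intro z
    have := Set.mem_iInter.mp hr2 z
    exact this
  have hiff : ∀ z, r z = z ↔ f z = z := by
    intro z
    constructor
    · intro hz
      have := hrV z
      rwa [hz] at this
    · intro hz
      exact closure_fix hr z hz
  refine ⟨r, ⟨closure_lip hr, fun x => closure_fix hr _ (hrV x), ?_⟩, hiff⟩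
  intro x y hx hy φ hφ s
  exact closure_line hr ((hiff x).mp hx) ((hiff y).mp hy) hφ s

end Pool.Agent.Lib.MP_769694_an
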