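import Mathlib
import Pool.Agent.Lib.MP_769694_an.Retract

/-!
The Busemann function argument.
-/

set_option autoImplicit false

namespace Pool.Agent.Lib.MP_769694_an

open Filter Topology Set

variable {X : Type*} [NormedAddCommGroup X] [NormedSpace ℝ X]

lemma neg_norm_le {φ : X →L[ℝ] ℝ} (h : ‖φ‖ ≤ 1) (v : X) : -‖v‖ ≤ φ v := by
  have := le_norm_of_norm_le_one h (-v)
  rw [map_neg, norm_neg] at this
  linarith

/-- Cluster points of norming functionals of `(n+1) v - w` are norming functionals of `v`. -/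
lemma exists_norming_limit [FiniteDimensional ℝ X] (v w : X) (ψ : ℕ → X →L[ℝ] ℝ)
    (hψ : ∀ n : ℕ, Norming (ψ n) (((n : ℝ) + 1) • v - w)) :
    ∃ ψ₀ : X →L[ℝ] ℝ, Norming ψ₀ v ∧ ∃ k : ℕ → ℕ, StrictMono k ∧
      Tendsto (fun n => ψ (k n) w) atTop (𝓝 (ψ₀ w)) := by
  have hcomp : IsCompact (Metric.closedBall (0 : X →L[ℝ] ℝ) 1) := isCompact_closedBall _ _
  obtain ⟨ψ₀, hψ₀, k, hk, hlim⟩ := hcomp.tendsto_subseq (x := ψ) (fun n => by
    rw [Metric.mem_closedBall, dist_zero_right]; exact (hψ n).1)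
  have hev : ∀ u : X, Tendsto (fun n => ψ (k n) u) atTop (𝓝 (ψ₀ u)) := fun u =>
    ((ContinuousLinearMap.apply ℝ ℝ u).continuous.tendsto ψ₀).comp hlim
  refine ⟨ψ₀, ⟨?_, ?_⟩, k, hk, hev w⟩
  · simpa using hψ₀
  · refine tendsto_nhds_unique (hev v) ?_
    have hup : ∀ n, ψ (k n) v ≤ ‖v‖ := fun n => le_norm_of_norm_le_one (hψ (k n)).1 v
    have hlow : ∀ n, ‖v‖ - 2 * ‖w‖ * (1 / ((k n : ℝ) + 1)) ≤ ψ (k n) v := by
      intro n
      have hkn : (0:ℝ) < (k n : ℝ) + 1 := by positivity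
      have h1 := (hψ (k n)).2
      rw [map_sub, map_smul, smul_eq_mul] at h1
      have h2 : ((k n : ℝ) + 1) * ‖v‖ - ‖w‖ ≤ ‖((k n : ℝ) + 1) • v - w‖ := by
        have := norm_sub_norm_le (((k n : ℝ) + 1) • v) w
        rw [norm_smul, Real.norm_eq_abs, abs_of_pos hkn] at this
        exact this
      have h3 : -‖w‖ ≤ ψ (k n) w := neg_norm_le (hψ (k n)).1 w
      have h4 : ((k n : ℝ) + 1) * (‖v‖ - ψ (k n) v) ≤ 2 * ‖w‖ := by linarith
      rw [sub_le_iff_le_add, ← sub_le_iff_le_add', mul_one_div, le_div_iff₀ hkn]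
      linarith
    have hlimlow : Tendsto (fun n => ‖v‖ - 2 * ‖w‖ * (1 / ((k n : ℝ) + 1))) atTop (𝓝 ‖v‖) := by
      have h0 : Tendsto (fun n : ℕ => 1 / ((n : ℝ) + 1)) atTop (𝓝 0) :=
        tendsto_one_div_add_atTop_nhds_zero_nat
      have h1 := (h0.comp hk.tendsto_atTop).const_mul (2 * ‖w‖)
      have h2 := h1.const_sub ‖v‖
      simpa using h2
    exact tendsto_of_tendsto_of_tendsto_of_le_of_le hlimlow tendsto_const_nhds hlow hup

/-- One half of the Busemann argument. -/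
lemma busemann_le [FiniteDimensional ℝ X] {r : X → X} (hr : Good r) {x y z : X} (hx : r x = x)
    (hy : r y = y)
    (hz : ∀ φ ψ : X →L[ℝ] ℝ, Norming φ (x - y) → Norming ψ (x - y) → φ (z - y) = ψ (z - y))
    {φ : X →L[ℝ] ℝ} (hφ : Norming φ (x - y)) : φ z ≤ φ (r z) := by
  set v := x - y with hv
  set w := z - y with hw
  choose ψ hψ using fun n : ℕ => exists_norming (((n : ℝ) + 1) • v - w)
  obtain ⟨ψ₀, hψ₀, k, hk, hlim⟩ := exists_norming_limit v w ψ hψ
  have key : ∀ n : ℕ, φ y + ψ n w ≤ φ (r z) := by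
    intro n
    have h1 : φ (r (y + ((n : ℝ) + 1) • v)) = φ y + ((n : ℝ) + 1) * ‖v‖ := by
      rw [hr.line x y hx hy φ hφ, map_add, map_smul, hφ.2, smul_eq_mul]
    have h2 : φ (r (y + ((n : ℝ) + 1) • v)) - φ (r z) ≤ ‖((n : ℝ) + 1) • v - w‖ := by
      calc φ (r (y + ((n : ℝ) + 1) • v)) - φ (r z)
          = φ (r (y + ((n : ℝ) + 1) • v) - r z) := by rw [map_sub]
        _ ≤ ‖r (y + ((n : ℝ) + 1) • v) - r z‖ := le_norm_of_norm_le_one hφ.1 _
        _ ≤ ‖y + ((n : ℝ) + 1) • v - z‖ := hr.lip _ _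
        _ = ‖((n : ℝ) + 1) • v - w‖ := by congr 1; rw [hw]; abel
    have h3 : ‖((n : ℝ) + 1) • v - w‖ = ((n : ℝ) + 1) * ψ n v - ψ n w := by
      rw [← (hψ n).2, map_sub, map_smul, smul_eq_mul]
    have h4 : ψ n v ≤ ‖v‖ := le_norm_of_norm_le_one (hψ n).1 v
    have h5 : ((n : ℝ) + 1) * ψ n v ≤ ((n : ℝ) + 1) * ‖v‖ := by gcongr
    linarith
  have hlim2 : Tendsto (fun n => φ y + ψ (k n) w) atTop (𝓝 (φ y + ψ₀ w)) := hlim.const_add _
  have h6 : φ y + ψ₀ w ≤ φ (r z) := le_of_tendsto' hlim2 fun n => key (k n)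
  have h7 : ψ₀ w = φ w := hz ψ₀ φ hψ₀ hφ
  rw [h7, hw, map_sub] at h6
  linarith

lemma norming_neg {φ : X →L[ℝ] ℝ} {v : X} (h : Norming φ v) : Norming (-φ) (-v) := by
  refine ⟨by rw [norm_neg]; exact h.1, ?_⟩
  simp [h.2]

/-- The Busemann argument. -/
lemma busemann [FiniteDimensional ℝ X] {r : X → X} (hr : Good r) {x y z : X} (hx : r x = x)
    (hy : r y = y)
    (hz : ∀ φ ψ : X →L[ℝ] ℝ, Norming φ (x - y) → Norming ψ (x - y) → φ (z - y) = ψ (z - y))
    {φ : X →L[ℝ] ℝ} (hφ : Norming φ (x - y)) : φ (r z) = φ z := by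
  apply le_antisymm
  · -- apply the other half to `(y, x)` and `-φ`
    have hφ' : Norming (-φ) (y - x) := by
      have := norming_neg hφ
      rwa [neg_sub] at this
    have hz' : ∀ φ ψ : X →L[ℝ] ℝ, Norming φ (y - x) → Norming ψ (y - x) →
        φ (z - x) = ψ (z - x) := by
      intro α β hα hβ
      have hα' : Norming (-α) (x - y) := by
        have := norming_neg hα
        rwa [neg_sub] at this
      have hβ' : Norming (-β) (x - y) := by
        have := norming_neg hβ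
        rwa [neg_sub] at this
      have h1 := hz _ _ hα' hβ'
      have h2 := hα'.2
      have h3 := hβ'.2
      simp only [neg_apply, map_sub] at h1 h2 h3 ⊢
      linarith
    have := busemann_le hr hy hx hz' hφ'
    simp only [neg_apply] at this
    linarith
  · exact busemann_le hr hx hy hz hφ

/-- The linear subspace on which all norming functionals of `x - y` agree. -/
def W (v : X) : Submodule ℝ X where
  carrier := {w | ∀ φ ψ : X →L[ℝ] ℝ, Norming φ v → Norming ψ v → φ w = ψ w}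
  add_mem' := by
    intro a b ha hb φ ψ hφ hψ
    rw [map_add, map_add, ha φ ψ hφ hψ, hb φ ψ hφ hψ]
  zero_mem' := by
    intro φ ψ _ _
    rw [map_zero, map_zero]
  smul_mem' := by
    intro c a ha φ ψ hφ hψ
    rw [map_smul, map_smul, ha φ ψ hφ hψ]

lemma mem_W {v w : X} :
    w ∈ W v ↔ ∀ φ ψ : X →L[ℝ] ℝ, Norming φ v → Norming ψ v → φ w = ψ w := Iff.rfl

lemma self_mem_W (v : X) : v ∈ W v := by
  intro φ ψ hφ hψ
  rw [hφ.2, hψ.2]

/-- The affine subspace through `y` with direction `W (x - y)`. -/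
noncomputable def A (x y : X) : AffineSubspace ℝ X := AffineSubspace.mk' y (W (x - y))

lemma mem_A {x y z : X} : z ∈ A x y ↔ z - y ∈ W (x - y) := by
  rw [A, AffineSubspace.mem_mk']; rfl

lemma left_mem_A (x y : X) : x ∈ A x y := by
  rw [mem_A]; exact self_mem_W _

lemma right_mem_A (x y : X) : y ∈ A x y := by
  rw [mem_A, sub_self]; exact Submodule.zero_mem _

lemma A_inv [FiniteDimensional ℝ X] {r : X → X} (hr : Good r) {x y : X} (hx : r x = x)
    (hy : r y = y) {z : X} (hz : z ∈ A x y) : r z ∈ A x y := by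
  rw [mem_A, mem_W] at hz ⊢
  intro φ ψ hφ hψ
  have h1 := busemann hr hx hy hz hφ
  have h2 := busemann hr hx hy hz hψ
  have h3 := hz φ ψ hφ hψ
  rw [map_sub, map_sub] at h3 ⊢
  rw [h1, h2, h3]

lemma A_pres [FiniteDimensional ℝ X] {r : X → X} (hr : Good r) {x y : X} (hx : r x = x)
    (hy : r y = y) {z : X} (hz : z ∈ A x y) {φ : X →L[ℝ] ℝ} (hφ : Norming φ (x - y)) :
    φ (r z) = φ z := busemann hr hx hy hz hφ

end Pool.Agent.Lib.MP_769694_an
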