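import Mathlib
import Pool.Agent.Lib.MP_769694_an.Busemann

/-!
The induction on invariant affine subspaces.
-/

set_option autoImplicit false

namespace Pool.Agent.Lib.MP_769694_an

open Filter Topology Set Module

variable {X : Type*} [NormedAddCommGroup X] [NormedSpace ℝ X]

/-- Fixed points of `r` in `Y`. -/
def Fx (r : X → X) (Y : AffineSubspace ℝ X) : Set X := {p | p ∈ Y ∧ r p = p}

/-- Invariance of `Y` under `r`. -/
def Inv (r : X → X) (Y : AffineSubspace ℝ X) : Prop := ∀ z ∈ Y, r z ∈ Y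

/-- `v` is normed by a functional that `r` preserves on `Y`. -/
def Pres (r : X → X) (Y : AffineSubspace ℝ X) (v : X) : Prop :=
  ∃ φ : X →L[ℝ] ℝ, Norming φ v ∧ ∀ z ∈ Y, φ (r z) = φ z

lemma Good.continuous {r : X → X} (hr : Good r) : Continuous r := by
  have : LipschitzWith 1 r := LipschitzWith.of_dist_le_mul fun x y => by
    simpa [dist_eq_norm] using hr.lip x y
  exact this.continuous

lemma isClosed_pres [FiniteDimensional ℝ X] (r : X → X) (Y : AffineSubspace ℝ X) :
    IsClosed {v | Pres r Y v} := by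
  apply IsSeqClosed.isClosed
  intro v v₀ hv hlim
  choose φ hφ hφY using hv
  have hcomp : IsCompact (Metric.closedBall (0 : X →L[ℝ] ℝ) 1) := isCompact_closedBall _ _
  obtain ⟨ψ, hψ, k, hk, hψlim⟩ := hcomp.tendsto_subseq (x := φ) (fun n => by
    rw [Metric.mem_closedBall, dist_zero_right]; exact (hφ n).1)
  have hev : ∀ u : X, Tendsto (fun n => φ (k n) u) atTop (𝓝 (ψ u)) := fun u =>
    ((ContinuousLinearMap.apply ℝ ℝ u).continuous.tendsto ψ).comp hψlim
  refine ⟨ψ, ⟨by simpa using hψ, ?_⟩, ?_⟩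
  · have h1 : Tendsto (fun n => φ (k n) (v (k n))) atTop (𝓝 (ψ v₀)) := by
      have hc : Continuous (fun p : (X →L[ℝ] ℝ) × X => p.1 p.2) :=
        isBoundedBilinearMap_apply.continuous
      have := (hc.tendsto (ψ, v₀)).comp (hψlim.prodMk_nhds (hlim.comp hk.tendsto_atTop))
      exact this
    have h2 : Tendsto (fun n => ‖v (k n)‖) atTop (𝓝 ‖v₀‖) :=
      (hlim.comp hk.tendsto_atTop).norm
    refine tendsto_nhds_unique h1 ?_
    refine h2.congr fun n => ?_
    exact ((hφ (k n)).2).symm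
  · intro z hz
    refine tendsto_nhds_unique (hev (r z)) ?_
    refine (hev z).congr fun n => ?_
    exact (hφY (k n) z hz).symm

lemma pres_of_le [FiniteDimensional ℝ X] {r : X → X} (hr : Good r) {Y : AffineSubspace ℝ X}
    {x y : X} (hx : r x = x) (hy : r y = y) (h : Y ≤ A x y) : Pres r Y (x - y) := by
  obtain ⟨φ, hφ⟩ := exists_norming (x - y)
  exact ⟨φ, hφ, fun z hz => A_pres hr hx hy (h hz) hφ⟩

lemma mem_Fx_of_inv {r : X → X} (hr : Good r) {Z : AffineSubspace ℝ X} (hZ : Inv r Z) {z : X}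
    (hz : z ∈ Z) : r z ∈ Fx r Z := ⟨hZ z hz, hr.idem z⟩

lemma span_le (r : X → X) (Z : AffineSubspace ℝ X) : affineSpan ℝ (Fx r Z) ≤ Z :=
  affineSpan_le.mpr fun _ hp => hp.1

/-- The generic tangent argument. -/
lemma dense_tangent [FiniteDimensional ℝ X] {r : X → X} (hr : Good r)
    {Z : AffineSubspace ℝ X} (hZ : Inv r Z)
    (hC : ∀ x ∈ Fx r Z, ∀ y ∈ Fx r Z, Pres r (affineSpan ℝ (Fx r Z)) (x - y))
    {z₀ : X} (hz₀ : z₀ ∈ Fx r Z) {y' : X} (hy' : r y' = y') :
    Dense {u : (affineSpan ℝ (Fx r Z)).direction |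
      ∀ p ∈ Fx r Z, p ∈ A (r (z₀ + (u : X))) y'} := by
  set Z' := affineSpan ℝ (Fx r Z) with hZ'
  have hsub : ∀ p ∈ Fx r Z, p ∈ Z' := fun p hp => subset_affineSpan ℝ _ hp
  have hle : Z' ≤ Z := span_le r Z
  have hz₀' : z₀ ∈ Z' := hsub _ hz₀
  have hadd : ∀ p ∈ Z', ∀ u : Z'.direction, p + (u : X) ∈ Z' := by
    intro p hp u
    have := AffineSubspace.vadd_mem_of_mem_direction u.2 hp
    rwa [vadd_eq_add, add_comm] at this
  have hrF : ∀ p ∈ Z', r p ∈ Fx r Z := fun p hp => mem_Fx_of_inv hr hZ (hle hp)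
  -- the map `ρ`
  have hmem : ∀ u : Z'.direction, r (z₀ + (u : X)) - z₀ ∈ Z'.direction := by
    intro u
    exact AffineSubspace.vsub_mem_direction (hsub _ (hrF _ (hadd _ hz₀' u))) hz₀'
  set ρ : Z'.direction → Z'.direction := fun u => ⟨r (z₀ + (u : X)) - z₀, hmem u⟩ with hρ
  set N : Z'.direction → ℝ := fun u => ‖r (z₀ + (u : X)) - y'‖ with hN
  have hρl : LipschitzWith 1 ρ := LipschitzWith.of_dist_le_mul fun a b => by
    rw [dist_eq_norm, dist_eq_norm]
    have h1 : ‖ρ a - ρ b‖ = ‖r (z₀ + (a : X)) - r (z₀ + (b : X))‖ := by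
      rw [← Submodule.norm_coe]
      congr 1
      simp only [hρ, Submodule.coe_sub]
      abel
    rw [h1]
    refine (hr.lip _ _).trans ?_
    have h2 : z₀ + (a : X) - (z₀ + (b : X)) = ((a - b : Z'.direction) : X) := by
      simp only [Submodule.coe_sub]; abel
    rw [h2, Submodule.norm_coe]
    simp
  have hNl : LipschitzWith 1 N := LipschitzWith.of_dist_le_mul fun a b => by
    rw [dist_eq_norm, dist_eq_norm, Real.norm_eq_abs]
    refine (abs_norm_sub_norm_le _ _).trans ?_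
    have h1 : r (z₀ + (a : X)) - y' - (r (z₀ + (b : X)) - y')
        = r (z₀ + (a : X)) - r (z₀ + (b : X)) := by abel
    rw [h1]
    refine (hr.lip _ _).trans ?_
    have h2 : z₀ + (a : X) - (z₀ + (b : X)) = ((a - b : Z'.direction) : X) := by
      simp only [Submodule.coe_sub]; abel
    rw [h2, Submodule.norm_coe]
    simp
  -- density of differentiability points
  let _ : MeasurableSpace Z'.direction := borel _
  have _ : BorelSpace Z'.direction := ⟨rfl⟩
  have hdense : Dense {u : Z'.direction | DifferentiableAt ℝ ρ u ∧ DifferentiableAt ℝ N u} := by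
    apply MeasureTheory.Measure.dense_of_ae (μ := (MeasureTheory.Measure.addHaar :
      MeasureTheory.Measure Z'.direction))
    filter_upwards [hρl.ae_differentiableAt (μ := MeasureTheory.Measure.addHaar),
      hNl.ae_differentiableAt (μ := MeasureTheory.Measure.addHaar)] with u h1 h2
    exact ⟨h1, h2⟩
  refine hdense.mono ?_
  rintro u ⟨hdρ, hdN⟩ p hp
  set x' := r (z₀ + (u : X)) with hx'
  have hx'F : x' ∈ Fx r Z := hrF _ (hadd _ hz₀' u)
  set A' := fderiv ℝ ρ u with hA'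
  have hρ' : HasFDerivAt ρ A' u := hdρ.hasFDerivAt
  have hN' : HasFDerivAt N (fderiv ℝ N u) u := hdN.hasFDerivAt
  -- all norming functionals of `x' - y'` agree on the image of `A'`
  have hψ : ∀ ψ : X →L[ℝ] ℝ, Norming ψ (x' - y') →
      fderiv ℝ N u = (ψ.comp Z'.direction.subtypeL).comp A' := by
    intro ψ hψ
    have hd : HasFDerivAt (fun u' : Z'.direction => N u' - ((ψ.comp Z'.direction.subtypeL) (ρ u')
        + ψ (z₀ - y'))) (fderiv ℝ N u - (ψ.comp Z'.direction.subtypeL).comp A') u := by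
      refine hN'.sub ?_
      exact (((ψ.comp Z'.direction.subtypeL).hasFDerivAt).comp u hρ').add_const _
    have hval : ∀ u' : Z'.direction, N u' - ((ψ.comp Z'.direction.subtypeL) (ρ u')
        + ψ (z₀ - y')) = ‖r (z₀ + (u' : X)) - y'‖ - ψ (r (z₀ + (u' : X)) - y') := by
      intro u'
      simp only [hN, hρ, ContinuousLinearMap.comp_apply, Submodule.subtypeL_apply, map_sub]
      ring
    have hmin : IsLocalMin (fun u' : Z'.direction => N u' -
        ((ψ.comp Z'.direction.subtypeL) (ρ u') + ψ (z₀ - y'))) u := by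
      refine Filter.Eventually.of_forall fun u' => ?_
      simp only [hval]
      have h1 : ‖r (z₀ + (u : X)) - y'‖ - ψ (r (z₀ + (u : X)) - y') = 0 := by
        rw [← hx', hψ.2, sub_self]
      have h2 : ψ (r (z₀ + (u' : X)) - y') ≤ ‖r (z₀ + (u' : X)) - y'‖ :=
        le_norm_of_norm_le_one hψ.1 _
      linarith
    have := hmin.hasFDerivAt_eq_zero hd
    exact sub_eq_zero.mp this
  have hAW : ∀ w : Z'.direction, ((A' w : Z'.direction) : X) ∈ W (x' - y') := by
    intro w φ ψ hφ hψ₂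
    have h1 := hψ φ hφ
    have h2 := hψ ψ hψ₂
    rw [h1] at h2
    have := DFunLike.congr_fun h2 w
    simpa using this
  -- preserved functionals
  have hpres : ∀ φ : X →L[ℝ] ℝ, (∀ z ∈ Z', φ (r z) = φ z) →
      ∀ w : Z'.direction, φ (A' w : Z'.direction) = φ w := by
    intro φ hφ w
    have h1 : HasFDerivAt (fun u' : Z'.direction => (φ.comp Z'.direction.subtypeL) (ρ u'))
        ((φ.comp Z'.direction.subtypeL).comp A') u :=
      ((φ.comp Z'.direction.subtypeL).hasFDerivAt).comp u hρ'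
    have h2 : (fun u' : Z'.direction => (φ.comp Z'.direction.subtypeL) (ρ u'))
        = fun u' => (φ.comp Z'.direction.subtypeL) u' := by
      funext u'
      simp only [hρ, ContinuousLinearMap.comp_apply, Submodule.subtypeL_apply, map_sub]
      rw [hφ _ (hadd _ hz₀' u'), map_add]
      ring
    rw [h2] at h1
    have h3 := h1.unique (φ.comp Z'.direction.subtypeL).hasFDerivAt
    have := DFunLike.congr_fun h3 w
    simpa using this
  -- the point `p`
  have hpZ' : p ∈ Z' := hsub p hp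
  have hwmem : p - (z₀ + (u : X)) ∈ Z'.direction :=
    AffineSubspace.vsub_mem_direction hpZ' (hadd _ hz₀' u)
  set w : Z'.direction := ⟨p - (z₀ + (u : X)), hwmem⟩ with hw
  set q := x' + ((A' w : Z'.direction) : X) with hq
  have hqZ' : q ∈ Z' := hadd _ (hsub _ hx'F) (A' w)
  have hqA : q ∈ A x' y' := by
    rw [mem_A]
    have : q - y' = (x' - y') + ((A' w : Z'.direction) : X) := by rw [hq]; abel
    rw [this]
    exact Submodule.add_mem _ (self_mem_W _) (hAW w)
  have hrq : r q = p := by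
    obtain ⟨φ, hφn, hφ⟩ := hC (r q) (hrF _ hqZ') p hp
    have h1 : φ (r q) = φ p := by
      rw [hφ q hqZ', hq, map_add, hpres φ hφ w, hx', hφ _ (hadd _ hz₀' u)]
      simp only [hw, map_sub, map_add]
      ring
    have h2 : ‖r q - p‖ = 0 := by
      rw [← hφn.2, map_sub, h1, sub_self]
    exact sub_eq_zero.mp (norm_eq_zero.mp h2)
  have := A_inv hr hx'F.2 hy' hqA
  rwa [hrq] at this

theorem main_induct [FiniteDimensional ℝ X] {r : X → X} (hr : Good r) :
    ∀ n : ℕ, ∀ Y : AffineSubspace ℝ X, finrank ℝ Y.direction = n → Inv r Y →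
      ∀ x ∈ Fx r Y, ∀ y ∈ Fx r Y, Pres r (affineSpan ℝ (Fx r Y)) (x - y) := by
  intro n
  induction n using Nat.strong_induction_on with
  | _ n ih =>
  intro Y hn hinv x hx y hy
  set Y' := affineSpan ℝ (Fx r Y) with hY'
  have hY'le : Y' ≤ Y := span_le r Y
  have hinv' : Inv r Y' := fun z hz =>
    subset_affineSpan ℝ _ (mem_Fx_of_inv hr hinv (hY'le hz))
  have hFx : Fx r Y' = Fx r Y := by
    ext p
    constructor
    · rintro ⟨h1, h2⟩; exact ⟨hY'le h1, h2⟩
    · intro h; exact ⟨subset_affineSpan ℝ _ h, h.2⟩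
  by_cases hYY : Y' = Y
  swap
  · have hlt : Y' < Y := lt_of_le_of_ne hY'le hYY
    have hne : (Y' : Set X).Nonempty := ⟨x, subset_affineSpan ℝ _ hx⟩
    have h1 := Submodule.finrank_lt_finrank_of_lt
      (AffineSubspace.direction_lt_of_nonempty hlt hne)
    rw [hn] at h1
    have := ih _ h1 Y' rfl hinv' x (hFx ▸ hx) y (hFx ▸ hy)
    rwa [hFx] at this
  rw [hYY]
  by_contra hcon
  -- the family of proper invariant subspaces through `x` and `y`
  let 𝒵 : Set (AffineSubspace ℝ X) := {Z | Z < Y ∧ Inv r Z ∧ x ∈ Z ∧ y ∈ Z}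
  have hmemZ : ∀ x' y' : X, r x' = x' → r y' = y' → x ∈ A x' y' → y ∈ A x' y' →
      ¬ Y ≤ A x' y' → A x' y' ⊓ Y ∈ 𝒵 := by
    intro x' y' hx' hy' hxA hyA hnot
    refine ⟨lt_of_le_of_ne inf_le_right ?_, ?_, ⟨hxA, hx.1⟩, ⟨hyA, hy.1⟩⟩
    · intro h; exact hnot (inf_eq_right.mp h)
    · intro z hz
      exact ⟨A_inv hr hx' hy' hz.1, hinv z hz.2⟩
  have hnle : ¬ Y ≤ A x y := fun h => hcon (pres_of_le hr hx.2 hy.2 h)
  have hne𝒵 : 𝒵.Nonempty :=
    ⟨_, hmemZ x y hx.2 hy.2 (left_mem_A x y) (right_mem_A x y) hnle⟩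
  obtain ⟨Z, hZ𝒵, hmax⟩ := (measure fun Z : AffineSubspace ℝ X =>
    finrank ℝ X - finrank ℝ (affineSpan ℝ (Fx r Z)).direction).wf.has_min 𝒵 hne𝒵
  obtain ⟨hZlt, hZinv, hxZ, hyZ⟩ := hZ𝒵
  have hxF : x ∈ Fx r Z := ⟨hxZ, hx.2⟩
  have hyF : y ∈ Fx r Z := ⟨hyZ, hy.2⟩
  have hC : ∀ a ∈ Fx r Z, ∀ b ∈ Fx r Z, Pres r (affineSpan ℝ (Fx r Z)) (a - b) := by
    have h1 := Submodule.finrank_lt_finrank_of_lt
      (AffineSubspace.direction_lt_of_nonempty hZlt ⟨x, hxZ⟩)
    rw [hn] at h1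
    exact ih _ h1 Z rfl hZinv
  have hZcl : IsClosed (Z : Set X) := AffineSubspace.closed_of_finiteDimensional Z
  -- step C
  have stepC : ∀ y' ∈ Fx r Y, y' ∉ Z → ∀ x' ∈ Fx r Z, Pres r Y (x' - y') := by
    intro y' hy' hy'Z x' hx'
    have hd := dense_tangent hr hZinv hC hxF (y' := y') hy'.2
    set E := (affineSpan ℝ (Fx r Z)).direction with hE
    have hcl : IsClosed {u : E | Pres r Y (r (x + (u : X)) - y')} := by
      have hcont : Continuous (fun u : E => r (x + (u : X)) - y') := by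
        exact (hr.continuous.comp (continuous_const.add continuous_subtype_val)).sub
          continuous_const
      exact (isClosed_pres r Y).preimage hcont
    have hsub : {u : E | ∀ p ∈ Fx r Z, p ∈ A (r (x + (u : X))) y'} ⊆
        {u : E | Pres r Y (r (x + (u : X)) - y')} := by
      intro u hu
      have hx'' : r (r (x + (u : X))) = r (x + (u : X)) := hr.idem _
      by_cases hYA : Y ≤ A (r (x + (u : X))) y'
      · exact pres_of_le hr hx'' hy'.2 hYA
      exfalso
      have hZ1 := hmemZ _ _ hx'' hy'.2 (hu x hxF) (hu y hyF) hYA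
      refine hmax _ hZ1 ?_
      set Z1 := A (r (x + (u : X))) y' ⊓ Y with hZ1def
      have hss : Fx r Z ⊆ Fx r Z1 := fun p hp => ⟨⟨hu p hp, hZlt.le hp.1⟩, hp.2⟩
      have hy'1 : y' ∈ Fx r Z1 := ⟨⟨right_mem_A _ _, hy'.1⟩, hy'.2⟩
      have hlt : affineSpan ℝ (Fx r Z) < affineSpan ℝ (Fx r Z1) := by
        refine lt_of_le_of_ne (affineSpan_mono ℝ hss) ?_
        intro heq
        have : y' ∈ affineSpan ℝ (Fx r Z) := by
          rw [heq]; exact subset_affineSpan ℝ _ hy'1
        exact hy'Z (span_le r Z this)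
      have h1 := Submodule.finrank_lt_finrank_of_lt
        (AffineSubspace.direction_lt_of_nonempty hlt ⟨x, subset_affineSpan ℝ _ hxF⟩)
      have h2 : finrank ℝ (affineSpan ℝ (Fx r Z1)).direction ≤ finrank ℝ X :=
        Submodule.finrank_le _
      show finrank ℝ X - finrank ℝ (affineSpan ℝ (Fx r Z1)).direction <
        finrank ℝ X - finrank ℝ (affineSpan ℝ (Fx r Z)).direction
      omega
    have huniv : {u : E | Pres r Y (r (x + (u : X)) - y')} = univ := by
      have := (hd.mono hsub).closure_eq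
      rwa [hcl.closure_eq] at this
    have hmem : x' - x ∈ E :=
      AffineSubspace.vsub_mem_direction (subset_affineSpan ℝ _ hx') (subset_affineSpan ℝ _ hxF)
    have h3 : (⟨x' - x, hmem⟩ : E) ∈ {u : E | Pres r Y (r (x + (u : X)) - y')} := by
      rw [huniv]; exact mem_univ _
    have h4 : Pres r Y (r (x + (x' - x)) - y') := h3
    rwa [add_sub_cancel, hx'.2] at h4
  -- step D
  obtain ⟨y', hy', hy'Z⟩ : ∃ y' ∈ Fx r Y, y' ∉ Z := by
    by_contra hall
    push Not at hall
    have : Y' ≤ Z := affineSpan_le.mpr hall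
    rw [hYY] at this
    exact absurd hZlt (not_lt_of_ge this)
  set c : ℝ → X := fun τ => r (x + τ • (y' - x)) with hc
  have hccont : Continuous c :=
    hr.continuous.comp (continuous_const.add (continuous_id.smul continuous_const))
  have hcF : ∀ τ, c τ ∈ Fx r Y := by
    intro τ
    apply mem_Fx_of_inv hr hinv
    have := AffineMap.lineMap_mem (k := ℝ) τ hx.1 hy'.1
    rw [AffineMap.lineMap_apply, vsub_eq_sub, vadd_eq_add, add_comm] at this
    exact this
  obtain ⟨τ₀, hτ₀, hgreat⟩ : ∃ τ₀, IsGreatest (Icc (0:ℝ) 1 ∩ c ⁻¹' (Z : Set X)) τ₀ := by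
    apply IsCompact.exists_isGreatest
    · exact isCompact_Icc.inter_right (hZcl.preimage hccont)
    · refine ⟨0, by simp, ?_⟩
      simp only [mem_preimage, hc, zero_smul, add_zero, hx.2]
      exact hxZ
  have hτ1 : τ₀ < 1 := by
    rcases lt_or_eq_of_le hτ₀.1.2 with h | h
    · exact h
    · exfalso
      have h1 := hτ₀.2
      rw [h] at h1
      simp only [mem_preimage, hc, one_smul, add_sub_cancel, hy'.2] at h1
      exact hy'Z h1
  set g := c τ₀ with hg
  have hgF : g ∈ Fx r Z := ⟨hτ₀.2, (hcF τ₀).2⟩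
  have hgP : ∀ x' ∈ Fx r Z, Pres r Y (x' - g) := by
    intro x' hx'
    have hcl : IsClosed {τ : ℝ | Pres r Y (x' - c τ)} :=
      (isClosed_pres r Y).preimage (continuous_const.sub hccont)
    have hss : Ioc τ₀ 1 ⊆ {τ : ℝ | Pres r Y (x' - c τ)} := by
      intro τ hτ
      refine stepC (c τ) (hcF τ) ?_ x' hx'
      intro hmem
      have : τ ≤ τ₀ := hgreat ⟨⟨hτ₀.1.1.trans hτ.1.le, hτ.2⟩, hmem⟩
      exact absurd hτ.1 (not_lt_of_ge this)
    have h1 := closure_minimal hss hcl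
    rw [closure_Ioc hτ1.ne] at h1
    exact h1 ⟨le_rfl, hτ1.le⟩
  -- step E
  have hspanZ : ∀ p ∈ Fx r Z, p ∈ affineSpan ℝ (Fx r Z) := fun p hp => subset_affineSpan ℝ _ hp
  have hdir : x - y ∈ (affineSpan ℝ (Fx r Z)).direction :=
    AffineSubspace.vsub_mem_direction (hspanZ _ hxF) (hspanZ _ hyF)
  have hq : g + (x - y) ∈ affineSpan ℝ (Fx r Z) := by
    have := AffineSubspace.vadd_mem_of_mem_direction hdir (hspanZ _ hgF)
    rwa [vadd_eq_add, add_comm] at this
  have hqF : r (g + (x - y)) ∈ Fx r Z := mem_Fx_of_inv hr hZinv (span_le r Z hq)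
  obtain ⟨φ, hφn, hφ⟩ := hgP _ hqF
  obtain ⟨φ', hφ'n, hφ'⟩ := hC x hxF y hyF
  have h1 : ‖x - y‖ ≤ ‖r (g + (x - y)) - g‖ := by
    have h2 : φ' (r (g + (x - y)) - g) = ‖x - y‖ := by
      rw [map_sub, hφ' _ hq, map_add, hφ'n.2]; ring
    rw [← h2]
    exact le_norm_of_norm_le_one hφ'n.1 _
  have h3 : φ (x - y) = ‖r (g + (x - y)) - g‖ := by
    rw [← hφn.2, map_sub φ (r _), hφ _ (hZlt.le (span_le r Z hq)), map_add]; ring
  have h4 : φ (x - y) ≤ ‖x - y‖ := le_norm_of_norm_le_one hφn.1 _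
  exact hcon ⟨φ, ⟨hφn.1, by linarith⟩, hφ⟩

end Pool.Agent.Lib.MP_769694_an
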