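import Mathlib
import Pool.Agent.Lib.MP_769694_an.Induct

/-!
A global bi-Lipschitz chart of the fixed point set.
-/

set_option autoImplicit false

namespace Pool.Agent.Lib.MP_769694_an

open Filter Topology Set Module

variable {X : Type*} [NormedAddCommGroup X] [NormedSpace ℝ X]

/-- Any two fixed points of a good retraction are normed by a functional preserved on the
affine span of the fixed point set. -/
theorem pres_fixed [FiniteDimensional ℝ X] {r : X → X} (hr : Good r) {x y : X} (hx : r x = x)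
    (hy : r y = y) : Pres r (affineSpan ℝ {p | r p = p}) (x - y) := by
  have h := main_induct hr _ (⊤ : AffineSubspace ℝ X) rfl (fun z _ => AffineSubspace.mem_top ℝ X _)
    x ⟨AffineSubspace.mem_top ℝ X _, hx⟩ y ⟨AffineSubspace.mem_top ℝ X _, hy⟩
  have hF : Fx r (⊤ : AffineSubspace ℝ X) = {p | r p = p} := by
    ext p; simp [Fx, AffineSubspace.mem_top]
  rwa [hF] at h

/-- The global chart. -/
theorem exists_chart [FiniteDimensional ℝ X] {r : X → X} (hr : Good r) {v₀ : X}
    (hv₀ : r v₀ = v₀) :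
    ∃ (k : ℕ) (g : {p : X | r p = p} → EuclideanSpace ℝ (Fin k))
      (h : EuclideanSpace ℝ (Fin k) → {p : X | r p = p}),
      (∀ x, h (g x) = x) ∧ (∀ c, g (h c) = c) ∧
      (∃ K : NNReal, LipschitzWith K g) ∧ (∃ K : NNReal, LipschitzWith K h) := by
  classical
  set V : Set X := {p : X | r p = p} with hV
  set Y := affineSpan ℝ V with hY
  set D := Y.direction with hD
  have hVY : ∀ p ∈ V, p ∈ Y := fun p hp => subset_affineSpan ℝ _ hp
  have hrV : ∀ z, r z ∈ V := fun z => hr.idem z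
  -- the kernel
  let K : Submodule ℝ D :=
    { carrier := {u | ∀ φ : X →L[ℝ] ℝ, (∀ z ∈ Y, φ (r z) = φ z) → φ (u : X) = 0}
      add_mem' := by
        intro a b ha hb φ hφ
        rw [Submodule.coe_add, map_add, ha φ hφ, hb φ hφ, add_zero]
      zero_mem' := by
        intro φ _
        rw [Submodule.coe_zero, map_zero]
      smul_mem' := by
        intro c a ha φ hφ
        rw [Submodule.coe_smul, map_smul, ha φ hφ, smul_zero] }
  have hK : ∀ u : D, u ∈ K ↔ ∀ φ : X →L[ℝ] ℝ, (∀ z ∈ Y, φ (r z) = φ z) → φ (u : X) = 0 :=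
    fun u => Iff.rfl
  obtain ⟨Q, hQ⟩ := Submodule.exists_isCompl K
  set k := finrank ℝ Q with hk
  have hfin : finrank ℝ Q = finrank ℝ (EuclideanSpace ℝ (Fin k)) := by
    rw [finrank_euclideanSpace, Fintype.card_fin]
  let e : Q ≃ₗ[ℝ] EuclideanSpace ℝ (Fin k) := LinearEquiv.ofFinrankEq _ _ hfin
  let P : D →ₗ[ℝ] Q := Q.projectionOnto K hQ.symm
  let L : D →L[ℝ] EuclideanSpace ℝ (Fin k) := LinearMap.toContinuousLinearMap (e.toLinearMap ∘ₗ P)
  let s : EuclideanSpace ℝ (Fin k) →L[ℝ] D :=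
    LinearMap.toContinuousLinearMap (Q.subtype ∘ₗ e.symm.toLinearMap)
  have hPQ : ∀ q : Q, P (q : D) = q := fun q => Submodule.projectionOnto_apply_left hQ.symm q
  have hP0 : ∀ u : D, P u = 0 ↔ u ∈ K := fun u =>
    Submodule.projectionOnto_apply_eq_zero_iff hQ.symm
  have hLe : ∀ u, L u = e (P u) := fun u => rfl
  have hse : ∀ c, s c = ((e.symm c : Q) : D) := fun c => rfl
  have hLs : ∀ c, L (s c) = c := by
    intro c
    rw [hLe, hse, hPQ, LinearEquiv.apply_symm_apply]
  have hsL : ∀ u : D, u - s (L u) ∈ K := by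
    intro u
    rw [hse, hLe, LinearEquiv.symm_apply_apply, ← hP0, map_sub, hPQ, sub_self]
  have hLK : ∀ u : D, u ∈ K → L u = 0 := by
    intro u hu
    rw [hLe, (hP0 u).mpr hu, map_zero]
  have hsub : ∀ x y : X, x ∈ V → y ∈ V → x - y ∈ D := fun x y hx hy =>
    AffineSubspace.vsub_mem_direction (hVY x hx) (hVY y hy)
  have haddY : ∀ u : D, v₀ + (u : X) ∈ Y := by
    intro u
    have := AffineSubspace.vadd_mem_of_mem_direction u.2 (hVY v₀ hv₀)
    rwa [vadd_eq_add, add_comm] at this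
  let g : V → EuclideanSpace ℝ (Fin k) := fun x => L ⟨(x : X) - v₀, hsub _ _ x.2 hv₀⟩
  let h : EuclideanSpace ℝ (Fin k) → V := fun c => ⟨r (v₀ + (s c : X)), hrV _⟩
  have hgsub : ∀ x y : V, g x - g y = L ⟨(x : X) - y, hsub _ _ x.2 y.2⟩ := by
    intro x y
    simp only [g]
    rw [← map_sub]
    congr 1
    apply Subtype.ext
    simp only [Submodule.coe_sub]
    abel
  -- lower bound
  have hlow : ∀ x y : V, ‖(x : X) - y‖ ≤ ‖s‖ * ‖g x - g y‖ := by
    intro x y
    set u : D := ⟨(x : X) - y, hsub _ _ x.2 y.2⟩ with hu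
    obtain ⟨φ, hφn, hφ⟩ := pres_fixed hr x.2 y.2
    have h1 := (hK _).mp (hsL u) φ hφ
    rw [Submodule.coe_sub, map_sub, sub_eq_zero] at h1
    have h2 : ‖(x : X) - y‖ = φ (s (L u) : D) := by
      rw [← h1, hu, hφn.2]
    rw [h2, hgsub]
    calc φ (s (L u) : D) ≤ ‖((s (L u) : D) : X)‖ := le_norm_of_norm_le_one hφn.1 _
      _ = ‖s (L u)‖ := by rw [Submodule.norm_coe]
      _ ≤ ‖s‖ * ‖L u‖ := s.le_opNorm _
  have hgh : ∀ c, g (h c) = c := by
    intro c
    have h1 : (⟨r (v₀ + (s c : X)) - v₀, hsub _ _ (hrV _) hv₀⟩ : D) - s c ∈ K := by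
      rw [hK]
      intro φ hφ
      rw [Submodule.coe_sub, map_sub]
      simp only [map_sub]
      rw [hφ _ (haddY (s c)), map_add]
      ring
    have h2 := hLK _ h1
    rw [map_sub, hLs, sub_eq_zero] at h2
    exact h2
  have hhg : ∀ x, h (g x) = x := by
    intro x
    have h1 := hlow (h (g x)) x
    rw [hgh, sub_self, norm_zero, mul_zero, norm_le_zero_iff, sub_eq_zero] at h1
    exact Subtype.ext h1
  refine ⟨k, g, h, hhg, hgh, ⟨‖L‖₊, ?_⟩, ⟨‖s‖₊, ?_⟩⟩
  · refine LipschitzWith.of_dist_le_mul fun x y => ?_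
    rw [dist_eq_norm, hgsub, Subtype.dist_eq, dist_eq_norm]
    exact L.le_opNorm _
  · refine LipschitzWith.of_dist_le_mul fun c d => ?_
    have h1 := hlow (h c) (h d)
    rw [hgh, hgh] at h1
    rw [Subtype.dist_eq, dist_eq_norm, dist_eq_norm]
    exact h1

end Pool.Agent.Lib.MP_769694_an
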