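import Mathlib

/-!
MP_769694_an: an analytic nonexpansive map of `(ℝⁿ, sup norm)`, `n ≥ 3`, whose fixed point set has a tangent
cone which is not a linear subspace.

`F(x, y, z) = z³ + z (sin² x + sin² y) - (sin³ x + sin³ y) / 9`, and `f` changes only the third coordinate,
`z ↦ z - arctan(F) / 5`.
-/

set_option autoImplicit false

namespace Pool.Agent.Lib.MP_769694_an.Cone

open Filter Topology Set

/-- The function `F`. -/
noncomputable def F (x y z : ℝ) : ℝ :=
  z ^ 3 + z * (Real.sin x ^ 2 + Real.sin y ^ 2) - (Real.sin x ^ 3 + Real.sin y ^ 3) / 9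

theorem bound_Fz (x y z : ℝ) :
    3 * z ^ 2 + (Real.sin x ^ 2 + Real.sin y ^ 2) ≤ 5 * (1 + F x y z ^ 2) := by
  have hx1 := Real.sin_sq_le_one x
  have hy1 := Real.sin_sq_le_one y
  have hx0 := sq_nonneg (Real.sin x)
  have hy0 := sq_nonneg (Real.sin y)
  have ax : |Real.sin x| ≤ 1 := Real.abs_sin_le_one x
  have ay : |Real.sin y| ≤ 1 := Real.abs_sin_le_one y
  have bx : |Real.sin x ^ 3| ≤ 1 := by
    rw [abs_pow]; exact pow_le_one₀ (abs_nonneg _) ax
  have by' : |Real.sin y ^ 3| ≤ 1 := by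
    rw [abs_pow]; exact pow_le_one₀ (abs_nonneg _) ay
  by_cases hz : |z| ≤ 1
  · have hz2 : z ^ 2 ≤ 1 := by
      rw [← sq_abs]; exact pow_le_one₀ (abs_nonneg _) hz
    nlinarith [sq_nonneg (F x y z)]
  · push Not at hz
    have h1 : (7 / 9 : ℝ) * |z| ≤ |F x y z| := by
      have e : F x y z = z * (z ^ 2 + (Real.sin x ^ 2 + Real.sin y ^ 2)) -
          (Real.sin x ^ 3 + Real.sin y ^ 3) / 9 := by unfold F; ring
      have h2 : |z * (z ^ 2 + (Real.sin x ^ 2 + Real.sin y ^ 2))| ≥ |z| := by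
        rw [abs_mul]
        have h3 : 1 ≤ |z ^ 2 + (Real.sin x ^ 2 + Real.sin y ^ 2)| := by
          have : 1 ≤ z ^ 2 := by
            rw [← sq_abs]; exact one_le_pow₀ hz.le
          rw [abs_of_nonneg (by positivity)]
          linarith
        nlinarith [abs_nonneg z]
      have h4 : |(Real.sin x ^ 3 + Real.sin y ^ 3) / 9| ≤ 2 / 9 := by
        rw [abs_div, abs_of_pos (by norm_num : (0 : ℝ) < 9)]
        have := abs_add_le (Real.sin x ^ 3) (Real.sin y ^ 3)
        linarith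
      have h5 := abs_sub_abs_le_abs_sub (z * (z ^ 2 + (Real.sin x ^ 2 + Real.sin y ^ 2)))
        ((Real.sin x ^ 3 + Real.sin y ^ 3) / 9)
      rw [e]
      linarith
    have h6 : (49 / 81 : ℝ) * z ^ 2 ≤ F x y z ^ 2 := by
      rw [← sq_abs z, ← sq_abs (F x y z)]
      nlinarith [abs_nonneg z, abs_nonneg (F x y z)]
    nlinarith [sq_nonneg z]

theorem lin_deriv (a b t : ℝ) : HasDerivAt (fun t => a + t * b) b t := by
  simpa using ((hasDerivAt_id t).mul_const b).const_add a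

/-- The third coordinate is nonexpansive for the sup norm. -/
theorem third_coord (x y z x' y' z' M : ℝ) (hx : |x' - x| ≤ M) (hy : |y' - y| ≤ M)
    (hz : |z' - z| ≤ M) :
    |(z' - Real.arctan (F x' y' z') / 5) - (z - Real.arctan (F x y z) / 5)| ≤ M := by
  set dx := x' - x with hdx
  set dy := y' - y with hdy
  set dz := z' - z with hdz
  let X : ℝ → ℝ := fun t => x + t * dx
  let Y : ℝ → ℝ := fun t => y + t * dy
  let Z : ℝ → ℝ := fun t => z + t * dz
  have hX : ∀ t, HasDerivAt X dx t := fun t => lin_deriv x dx t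
  have hY : ∀ t, HasDerivAt Y dy t := fun t => lin_deriv y dy t
  have hZ : ∀ t, HasDerivAt Z dz t := fun t => lin_deriv z dz t
  let G : ℝ → ℝ := fun t => Z t - Real.arctan (F (X t) (Y t) (Z t)) / 5
  have hG : ∀ t, HasDerivAt G (dz - 1 / (1 + F (X t) (Y t) (Z t) ^ 2) *
      (3 * Z t ^ 2 * dz + (dz * (Real.sin (X t) ^ 2 + Real.sin (Y t) ^ 2) +
        Z t * (2 * Real.sin (X t) * (Real.cos (X t) * dx) + 2 * Real.sin (Y t) * (Real.cos (Y t) * dy))) -
        (3 * Real.sin (X t) ^ 2 * (Real.cos (X t) * dx) +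
          3 * Real.sin (Y t) ^ 2 * (Real.cos (Y t) * dy)) / 9) / 5) t := by
    intro t
    have hsx : HasDerivAt (fun t => Real.sin (X t)) (Real.cos (X t) * dx) t := (hX t).sin
    have hsy : HasDerivAt (fun t => Real.sin (Y t)) (Real.cos (Y t) * dy) t := (hY t).sin
    have h1 : HasDerivAt (fun t => Z t ^ 3) (3 * Z t ^ 2 * dz) t := by
      simpa using (hZ t).fun_pow 3
    have h2 : HasDerivAt (fun t => Real.sin (X t) ^ 2) (2 * Real.sin (X t) * (Real.cos (X t) * dx)) t := by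
      simpa using hsx.fun_pow 2
    have h3 : HasDerivAt (fun t => Real.sin (Y t) ^ 2) (2 * Real.sin (Y t) * (Real.cos (Y t) * dy)) t := by
      simpa using hsy.fun_pow 2
    have h4 : HasDerivAt (fun t => Real.sin (X t) ^ 3) (3 * Real.sin (X t) ^ 2 * (Real.cos (X t) * dx)) t := by
      simpa using hsx.fun_pow 3
    have h5 : HasDerivAt (fun t => Real.sin (Y t) ^ 3) (3 * Real.sin (Y t) ^ 2 * (Real.cos (Y t) * dy)) t := by
      simpa using hsy.fun_pow 3
    have h6 := (h1.add ((hZ t).mul (h2.add h3))).sub ((h4.add h5).div_const 9)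
    have h7 := h6.arctan
    exact (hZ t).sub (h7.div_const 5)
  have hbd : ∀ t, |dz - 1 / (1 + F (X t) (Y t) (Z t) ^ 2) *
      (3 * Z t ^ 2 * dz + (dz * (Real.sin (X t) ^ 2 + Real.sin (Y t) ^ 2) +
        Z t * (2 * Real.sin (X t) * (Real.cos (X t) * dx) + 2 * Real.sin (Y t) * (Real.cos (Y t) * dy))) -
        (3 * Real.sin (X t) ^ 2 * (Real.cos (X t) * dx) +
          3 * Real.sin (Y t) ^ 2 * (Real.cos (Y t) * dy)) / 9) / 5| ≤ M := by
    intro t
    have hM : 0 ≤ M := le_trans (abs_nonneg _) hx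
    set a := Real.sin (X t) with ha
    set b := Real.sin (Y t) with hb
    set ca := Real.cos (X t) with hca
    set cb := Real.cos (Y t) with hcb
    set w := Z t with hw
    set q := 1 / (1 + F (X t) (Y t) w ^ 2) / 5 with hq
    have hq0 : 0 ≤ q := by rw [hq]; positivity
    have hFz : q * (3 * w ^ 2 + (a ^ 2 + b ^ 2)) ≤ 1 := by
      have h := bound_Fz (X t) (Y t) w
      have hp : 0 < 5 * (1 + F (X t) (Y t) w ^ 2) := by positivity
      have e : q * (3 * w ^ 2 + (a ^ 2 + b ^ 2)) = (3 * w ^ 2 + (a ^ 2 + b ^ 2)) / (5 * (1 + F (X t) (Y t) w ^ 2)) := by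
        rw [hq]; field_simp
      rw [e, div_le_one hp]
      exact h
    have hca1 : |ca| ≤ 1 := Real.abs_cos_le_one _
    have hcb1 : |cb| ≤ 1 := Real.abs_cos_le_one _
    have e1 : dz - 1 / (1 + F (X t) (Y t) w ^ 2) *
        (3 * w ^ 2 * dz + (dz * (a ^ 2 + b ^ 2) +
          w * (2 * a * (ca * dx) + 2 * b * (cb * dy))) -
          (3 * a ^ 2 * (ca * dx) + 3 * b ^ 2 * (cb * dy)) / 9) / 5 =
        (1 - q * (3 * w ^ 2 + (a ^ 2 + b ^ 2))) * dz -
          q * ((2 * w * a - a ^ 2 / 3) * (ca * dx) + (2 * w * b - b ^ 2 / 3) * (cb * dy)) := by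
      rw [hq]; ring
    rw [e1]
    have hA : |(2 * w * a - a ^ 2 / 3) * (ca * dx)| ≤ (3 / 2 * w ^ 2 + a ^ 2) * M := by
      rw [abs_mul, abs_mul]
      have h1 : |2 * w * a - a ^ 2 / 3| ≤ 3 / 2 * w ^ 2 + a ^ 2 := by
        rw [abs_le]
        constructor
        · nlinarith [sq_nonneg (3 * w + 2 * a), sq_nonneg (3 * w - 2 * a), sq_nonneg a]
        · nlinarith [sq_nonneg (3 * w - 2 * a), sq_nonneg a]
      have h2 : |ca| * |dx| ≤ M := by
        calc |ca| * |dx| ≤ 1 * M := mul_le_mul hca1 hx (abs_nonneg _) (by norm_num)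
          _ = M := one_mul M
      exact mul_le_mul h1 h2 (by positivity) (by positivity)
    have hB : |(2 * w * b - b ^ 2 / 3) * (cb * dy)| ≤ (3 / 2 * w ^ 2 + b ^ 2) * M := by
      rw [abs_mul, abs_mul]
      have h1 : |2 * w * b - b ^ 2 / 3| ≤ 3 / 2 * w ^ 2 + b ^ 2 := by
        rw [abs_le]
        constructor
        · nlinarith [sq_nonneg (3 * w + 2 * b), sq_nonneg (3 * w - 2 * b), sq_nonneg b]
        · nlinarith [sq_nonneg (3 * w - 2 * b), sq_nonneg b]
      have h2 : |cb| * |dy| ≤ M := by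
        calc |cb| * |dy| ≤ 1 * M := mul_le_mul hcb1 hy (abs_nonneg _) (by norm_num)
          _ = M := one_mul M
      exact mul_le_mul h1 h2 (by positivity) (by positivity)
    have hC : |(1 - q * (3 * w ^ 2 + (a ^ 2 + b ^ 2))) * dz| ≤
        (1 - q * (3 * w ^ 2 + (a ^ 2 + b ^ 2))) * M := by
      rw [abs_mul, abs_of_nonneg (by linarith)]
      exact mul_le_mul_of_nonneg_left hz (by linarith)
    have hD : |q * ((2 * w * a - a ^ 2 / 3) * (ca * dx) + (2 * w * b - b ^ 2 / 3) * (cb * dy))| ≤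
        q * ((3 / 2 * w ^ 2 + a ^ 2) * M + (3 / 2 * w ^ 2 + b ^ 2) * M) := by
      rw [abs_mul, abs_of_nonneg hq0]
      refine mul_le_mul_of_nonneg_left ?_ hq0
      exact (abs_add_le _ _).trans (add_le_add hA hB)
    calc |(1 - q * (3 * w ^ 2 + (a ^ 2 + b ^ 2))) * dz -
          q * ((2 * w * a - a ^ 2 / 3) * (ca * dx) + (2 * w * b - b ^ 2 / 3) * (cb * dy))|
        ≤ |(1 - q * (3 * w ^ 2 + (a ^ 2 + b ^ 2))) * dz| +
          |q * ((2 * w * a - a ^ 2 / 3) * (ca * dx) + (2 * w * b - b ^ 2 / 3) * (cb * dy))| :=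
          abs_sub _ _
      _ ≤ (1 - q * (3 * w ^ 2 + (a ^ 2 + b ^ 2))) * M +
          q * ((3 / 2 * w ^ 2 + a ^ 2) * M + (3 / 2 * w ^ 2 + b ^ 2) * M) := add_le_add hC hD
      _ = M := by ring
  have key := norm_image_sub_le_of_norm_deriv_le_segment_01' (f := G) (C := M)
    (fun t _ => (hG t).hasDerivWithinAt) (fun t _ => hbd t)
  have e0 : G 0 = z - Real.arctan (F x y z) / 5 := by
    simp only [G, X, Y, Z, zero_mul, add_zero]
  have e1 : G 1 = z' - Real.arctan (F x' y' z') / 5 := by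
    simp only [G, X, Y, Z, one_mul, hdx, hdy, hdz, add_sub_cancel]
  rw [e0, e1, Real.norm_eq_abs] at key
  exact key

end Pool.Agent.Lib.MP_769694_an.Cone
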