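import Mathlib
import Pool.Agent.Lib.MP_769694_an.Cone

/-!
MP_769694_an: the analytic nonexpansive map of `(ℝⁿ, sup norm)`, `n ≥ 3`, whose fixed point set has a tangent
cone at `0` which is not a linear subspace.
-/

set_option autoImplicit false

namespace Pool.Agent.Lib.MP_769694_an.Cone

open Filter Topology Set

/-- `v` is a tangent vector of `S` at `p`: the limit of `c n • d n` with `c n > 0`, `p + d n ∈ S`, `d n → 0`. -/
def IsTangent {E : Type*} [NormedAddCommGroup E] [NormedSpace ℝ E] (S : Set E) (p v : E) : Prop :=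
  ∃ (c : ℕ → ℝ) (d : ℕ → E), (∀ n, 0 < c n) ∧ (∀ n, p + d n ∈ S) ∧ Tendsto d atTop (𝓝 0) ∧
    Tendsto (fun n => c n • d n) atTop (𝓝 v)

variable (n : ℕ)

/-- The coordinates `0`, `1`, `2`. -/
def i0 : Fin (n + 3) := ⟨0, by omega⟩
def i1 : Fin (n + 3) := ⟨1, by omega⟩
def i2 : Fin (n + 3) := ⟨2, by omega⟩

theorem i01 : i0 n ≠ i1 n := by simp [i0, i1, Fin.ext_iff]
theorem i02 : i0 n ≠ i2 n := by simp [i0, i2, Fin.ext_iff]
theorem i12 : i1 n ≠ i2 n := by simp [i1, i2, Fin.ext_iff]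

/-- The map. -/
noncomputable def fmap (x : Fin (n + 3) → ℝ) : Fin (n + 3) → ℝ :=
  fun i => if i = i2 n then x (i2 n) - Real.arctan (F (x (i0 n)) (x (i1 n)) (x (i2 n))) / 5 else x i

theorem fmap_analytic (x : Fin (n + 3) → ℝ) : AnalyticAt ℝ (fmap n) x := by
  have h : ContDiff ℝ ⊤ (fmap n) := by
    rw [contDiff_pi]
    intro i
    unfold fmap F
    by_cases hi : i = i2 n
    · simp only [hi, if_true]
      have h0 : ContDiff ℝ ⊤ (fun x : Fin (n + 3) → ℝ => x (i0 n)) := contDiff_apply ℝ ℝ _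
      have h1 : ContDiff ℝ ⊤ (fun x : Fin (n + 3) → ℝ => x (i1 n)) := contDiff_apply ℝ ℝ _
      have h2 : ContDiff ℝ ⊤ (fun x : Fin (n + 3) → ℝ => x (i2 n)) := contDiff_apply ℝ ℝ _
      exact h2.sub ((Real.contDiff_arctan.comp (((h2.pow 3).add (h2.mul ((h0.sin.pow 2).add
        (h1.sin.pow 2)))).sub (((h0.sin.pow 3).add (h1.sin.pow 3)).div_const 9))).div_const 5)
    · simp only [hi, if_false]
      exact contDiff_apply ℝ ℝ _
  exact h.contDiffAt.analyticAt

theorem fmap_nonexpansive (x y : Fin (n + 3) → ℝ) : ‖fmap n x - fmap n y‖ ≤ ‖x - y‖ := by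
  rw [pi_norm_le_iff_of_nonneg (norm_nonneg _)]
  intro i
  have hc : ∀ j, |x j - y j| ≤ ‖x - y‖ := fun j => by
    have := norm_le_pi_norm (x - y) j
    simpa [Real.norm_eq_abs] using this
  rw [Pi.sub_apply, Real.norm_eq_abs]
  unfold fmap
  by_cases hi : i = i2 n
  · simp only [hi, if_true]
    exact third_coord _ _ _ _ _ _ _ (hc (i0 n)) (hc (i1 n)) (hc (i2 n))
  · simp only [hi, if_false]
    exact hc i

theorem fmap_fixed_iff (x : Fin (n + 3) → ℝ) :
    fmap n x = x ↔ F (x (i0 n)) (x (i1 n)) (x (i2 n)) = 0 := by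
  constructor
  · intro h
    have h1 := congrFun h (i2 n)
    unfold fmap at h1
    simp only [if_true] at h1
    have h2 : Real.arctan (F (x (i0 n)) (x (i1 n)) (x (i2 n))) = 0 := by linarith
    exact Real.arctan_eq_zero_iff.1 h2
  · intro h
    funext i
    unfold fmap
    by_cases hi : i = i2 n
    · simp only [hi, if_true, h, Real.arctan_zero]
      ring
    · simp only [hi, if_false]

/-- The equation of the tangent vectors at `0`. -/
theorem tangent_eq (v : Fin (n + 3) → ℝ) (hv : IsTangent {x | fmap n x = x} 0 v) :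
    v (i2 n) ^ 3 + v (i2 n) * (v (i0 n) ^ 2 + v (i1 n) ^ 2) = (v (i0 n) ^ 3 + v (i1 n) ^ 3) / 9 := by
  obtain ⟨c, d, -, hd, hd0, hcd⟩ := hv
  have hsin : ∀ i, Tendsto (fun k => c k * Real.sin (d k i)) atTop (𝓝 (v i)) := by
    intro i
    have h1 : Tendsto (fun k => c k * d k i) atTop (𝓝 (v i)) := by
      have := (tendsto_pi_nhds.1 hcd) i
      simpa [smul_eq_mul] using this
    have h2 : Tendsto (fun k => Real.sinc (d k i)) atTop (𝓝 (Real.sinc 0)) := by
      have := (tendsto_pi_nhds.1 hd0) i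
      exact (Real.continuous_sinc.tendsto 0).comp this
    rw [Real.sinc_zero] at h2
    have h3 := h1.mul h2
    rw [mul_one] at h3
    refine h3.congr fun k => ?_
    by_cases h0 : d k i = 0
    · rw [h0]; simp
    · rw [Real.sinc_of_ne_zero h0]; field_simp
  have hz : Tendsto (fun k => c k * d k (i2 n)) atTop (𝓝 (v (i2 n))) := by
    have := (tendsto_pi_nhds.1 hcd) (i2 n)
    simpa [smul_eq_mul] using this
  have h0 := hsin (i0 n)
  have h1 := hsin (i1 n)
  have hlim := ((hz.pow 3).add (hz.mul ((h0.pow 2).add (h1.pow 2)))).sub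
    (((h0.pow 3).add (h1.pow 3)).div_const 9)
  have hzero : ∀ k, (c k * d k (i2 n)) ^ 3 + (c k * d k (i2 n)) *
      ((c k * Real.sin (d k (i0 n))) ^ 2 + (c k * Real.sin (d k (i1 n))) ^ 2) -
      ((c k * Real.sin (d k (i0 n))) ^ 3 + (c k * Real.sin (d k (i1 n))) ^ 3) / 9 = 0 := by
    intro k
    have h2 := (fmap_fixed_iff n _).1 (hd k)
    rw [zero_add] at h2
    unfold F at h2
    have h3 : (c k * d k (i2 n)) ^ 3 + (c k * d k (i2 n)) *
      ((c k * Real.sin (d k (i0 n))) ^ 2 + (c k * Real.sin (d k (i1 n))) ^ 2) -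
      ((c k * Real.sin (d k (i0 n))) ^ 3 + (c k * Real.sin (d k (i1 n))) ^ 3) / 9 =
      c k ^ 3 * (d k (i2 n) ^ 3 + d k (i2 n) * (Real.sin (d k (i0 n)) ^ 2 + Real.sin (d k (i1 n)) ^ 2) -
        (Real.sin (d k (i0 n)) ^ 3 + Real.sin (d k (i1 n)) ^ 3) / 9) := by ring
    rw [h3, h2, mul_zero]
  simp only [hzero] at hlim
  have := tendsto_nhds_unique hlim tendsto_const_nhds
  linarith

theorem sin_lim : Tendsto (fun k : ℕ => ((k : ℝ) + 1) * Real.sin (1 / ((k : ℝ) + 1))) atTop (𝓝 1) := by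
  have h1 : Tendsto (fun k : ℕ => 1 / ((k : ℝ) + 1)) atTop (𝓝 0) := tendsto_one_div_add_atTop_nhds_zero_nat
  have h2 : Tendsto (fun k : ℕ => Real.sinc (1 / ((k : ℝ) + 1))) atTop (𝓝 (Real.sinc 0)) :=
    (Real.continuous_sinc.tendsto 0).comp h1
  rw [Real.sinc_zero] at h2
  refine h2.congr fun k => ?_
  have hk : (0 : ℝ) < (k : ℝ) + 1 := by positivity
  rw [Real.sinc_of_ne_zero (by positivity)]
  field_simp

/-- Two tangent vectors. -/
theorem tangent_mem (j : Fin (n + 3)) (hj : j = i0 n ∨ j = i1 n) (a : ℝ) (ha : a ^ 3 + a = 1 / 9) :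
    IsTangent {x | fmap n x = x} 0 (fun i => if i = j then 1 else if i = i2 n then a else 0) := by
  have hj2 : j ≠ i2 n := by
    rcases hj with rfl | rfl
    · exact i02 n
    · exact i12 n
  have hk : ∀ k : ℕ, (0 : ℝ) < (k : ℝ) + 1 := fun k => by positivity
  have h0 : Tendsto (fun k : ℕ => 1 / ((k : ℝ) + 1)) atTop (𝓝 0) := tendsto_one_div_add_atTop_nhds_zero_nat
  have hs : Tendsto (fun k : ℕ => Real.sin (1 / ((k : ℝ) + 1))) atTop (𝓝 0) := by
    have := (Real.continuous_sin.tendsto 0).comp h0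
    rw [Real.sin_zero] at this
    exact this
  refine ⟨fun k => (k : ℝ) + 1,
    fun k i => if i = j then 1 / ((k : ℝ) + 1) else if i = i2 n then a * Real.sin (1 / ((k : ℝ) + 1)) else 0,
    hk, fun k => ?_, ?_, ?_⟩
  · show fmap n _ = _
    rw [fmap_fixed_iff, zero_add]
    obtain ⟨s, hsdef⟩ : ∃ s, s = Real.sin (1 / ((k : ℝ) + 1)) := ⟨_, rfl⟩
    obtain ⟨dk, hdk⟩ : ∃ dk : Fin (n + 3) → ℝ, dk = fun i => if i = j then 1 / ((k : ℝ) + 1) else
      if i = i2 n then a * Real.sin (1 / ((k : ℝ) + 1)) else 0 := ⟨_, rfl⟩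
    have e2 : dk (i2 n) = a * s := by
      rw [hdk, hsdef]
      show (if i2 n = j then _ else if i2 n = i2 n then _ else _) = _
      rw [if_neg (Ne.symm hj2), if_pos rfl]
    suffices hF : F (dk (i0 n)) (dk (i1 n)) (dk (i2 n)) = 0 by
      rw [hdk] at hF
      exact hF
    have hval : ∀ x y : ℝ, (Real.sin x = s ∧ Real.sin y = 0) ∨ (Real.sin x = 0 ∧ Real.sin y = s) →
        F x y (a * s) = 0 := by
      intro x y hxy
      have e : (a * s) ^ 3 + (a * s) * s ^ 2 - s ^ 3 / 9 = s ^ 3 * (a ^ 3 + a - 1 / 9) := by ring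
      unfold F
      rcases hxy with ⟨hx, hy⟩ | ⟨hx, hy⟩ <;> rw [hx, hy]
      · have : (a * s) ^ 3 + a * s * (s ^ 2 + 0 ^ 2) - (s ^ 3 + 0 ^ 3) / 9 = s ^ 3 * (a ^ 3 + a - 1 / 9) := by
          ring
        rw [this, ha]; ring
      · have : (a * s) ^ 3 + a * s * (0 ^ 2 + s ^ 2) - (0 ^ 3 + s ^ 3) / 9 = s ^ 3 * (a ^ 3 + a - 1 / 9) := by
          ring
        rw [this, ha]; ring
    rw [e2]
    apply hval
    rcases hj with rfl | rfl
    · left
      refine ⟨?_, ?_⟩
      · rw [hdk, hsdef]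
        show Real.sin (if i0 n = i0 n then _ else _) = _
        rw [if_pos rfl]
      · rw [hdk]
        show Real.sin (if i1 n = i0 n then _ else if i1 n = i2 n then _ else _) = _
        rw [if_neg (Ne.symm (i01 n)), if_neg (i12 n), Real.sin_zero]
    · right
      refine ⟨?_, ?_⟩
      · rw [hdk]
        show Real.sin (if i0 n = i1 n then _ else if i0 n = i2 n then _ else _) = _
        rw [if_neg (i01 n), if_neg (i02 n), Real.sin_zero]
      · rw [hdk, hsdef]
        show Real.sin (if i1 n = i1 n then _ else _) = _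
        rw [if_pos rfl]
  · rw [tendsto_pi_nhds]
    intro i
    by_cases h1 : i = j
    · simp only [h1, if_true]
      exact h0
    · by_cases h2 : i = i2 n
      · simp only [if_neg h1, if_pos h2]
        have := hs.const_mul a
        simpa using this
      · simp only [if_neg h1, if_neg h2]
        exact tendsto_const_nhds
  · rw [tendsto_pi_nhds]
    intro i
    by_cases h1 : i = j
    · simp only [h1, if_true, Pi.smul_apply, smul_eq_mul]
      refine tendsto_const_nhds.congr fun k => ?_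
      have := hk k
      field_simp
    · by_cases h2 : i = i2 n
      · simp only [if_neg h1, if_pos h2, Pi.smul_apply, smul_eq_mul]
        have h3 := sin_lim.const_mul a
        rw [mul_one] at h3
        refine h3.congr fun k => ?_
        ring
      · simp only [if_neg h1, if_neg h2, Pi.smul_apply, smul_eq_mul, mul_zero]
        exact tendsto_const_nhds

/-- The tangent cone at `0` is not a linear subspace. -/
theorem not_linear : ¬ ∃ W : Submodule ℝ (Fin (n + 3) → ℝ), ∀ v,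
    IsTangent {x | fmap n x = x} 0 v ↔ v ∈ W := by
  rintro ⟨W, hW⟩
  obtain ⟨a, ⟨ha0, ha1⟩, ha⟩ : ∃ a ∈ Icc (0 : ℝ) 1, a ^ 3 + a = 1 / 9 := by
    have hc : ContinuousOn (fun a : ℝ => a ^ 3 + a) (Icc 0 1) := by fun_prop
    have := intermediate_value_Icc (zero_le_one) hc
    have h1 : (1 / 9 : ℝ) ∈ Icc ((0 : ℝ) ^ 3 + 0) (1 ^ 3 + 1) := by constructor <;> norm_num
    obtain ⟨a, ha, hea⟩ := this h1
    exact ⟨a, ha, hea⟩
  have h1 := (hW _).1 (tangent_mem n (i0 n) (Or.inl rfl) a ha)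
  have h2 := (hW _).1 (tangent_mem n (i1 n) (Or.inr rfl) a ha)
  have h3 := tangent_eq n _ ((hW _).2 (W.add_mem h1 h2))
  simp only [Pi.add_apply, Ne.symm (i02 n), Ne.symm (i12 n), i01 n, Ne.symm (i01 n), i02 n, i12 n,
    if_true, if_false] at h3
  have ha3 : 0 ≤ a ^ 3 := by positivity
  have : a = 0 := by nlinarith
  rw [this] at ha
  norm_num at ha

end Pool.Agent.Lib.MP_769694_an.Cone
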