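import Mathlib
import Pool.Agent.Lib.MP_769694_an.Chart

/-!
The fixed point set of a good retraction is an entire Lipschitz graph over a linear subspace: a linear map
restricts to a bi-Lipschitz bijection onto `ℝᵏ`.
-/

set_option autoImplicit false

namespace Pool.Agent.Lib.MP_769694_an

open Filter Topology Set Module

variable {X : Type*} [NormedAddCommGroup X] [NormedSpace ℝ X]

/-- The global linear chart. -/
theorem exists_linear_chart [FiniteDimensional ℝ X] {r : X → X} (hr : Good r) {v₀ : X}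
    (hv₀ : r v₀ = v₀) :
    ∃ (k : ℕ) (L : X →L[ℝ] EuclideanSpace ℝ (Fin k)) (C : ℝ),
      (∀ c, ∃ x, r x = x ∧ L x = c) ∧
      ∀ x y, r x = x → r y = y → ‖x - y‖ ≤ C * ‖L x - L y‖ := by
  classical
  set V : Set X := {p : X | r p = p} with hV
  set Y := affineSpan ℝ V with hY
  set D := Y.direction with hD
  have hVY : ∀ p ∈ V, p ∈ Y := fun p hp => subset_affineSpan ℝ _ hp
  have hrV : ∀ z, r z ∈ V := fun z => hr.idem z
  let K : Submodule ℝ D :=
    { carrier := {u | ∀ φ : X →L[ℝ] ℝ, (∀ z ∈ Y, φ (r z) = φ z) → φ (u : X) = 0}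
      add_mem' := by
        intro a b ha hb φ hφ
        rw [Submodule.coe_add, map_add, ha φ hφ, hb φ hφ, add_zero]
      zero_mem' := by
        intro φ _
        rw [Submodule.coe_zero, map_zero]
      smul_mem' := by
        intro c a ha φ hφ
        rw [Submodule.coe_smul, map_smul, ha φ hφ, smul_zero] }
  have hK : ∀ u : D, u ∈ K ↔ ∀ φ : X →L[ℝ] ℝ, (∀ z ∈ Y, φ (r z) = φ z) → φ (u : X) = 0 :=
    fun u => Iff.rfl
  obtain ⟨Q, hQ⟩ := Submodule.exists_isCompl K
  obtain ⟨D', hD'⟩ := Submodule.exists_isCompl D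
  set k := finrank ℝ Q with hk
  have hfin : finrank ℝ Q = finrank ℝ (EuclideanSpace ℝ (Fin k)) := by
    rw [finrank_euclideanSpace, Fintype.card_fin]
  let e : Q ≃ₗ[ℝ] EuclideanSpace ℝ (Fin k) := LinearEquiv.ofFinrankEq _ _ hfin
  let P : D →ₗ[ℝ] Q := Q.projectionOnto K hQ.symm
  let L₀ : D →ₗ[ℝ] EuclideanSpace ℝ (Fin k) := e.toLinearMap ∘ₗ P
  let L : X →L[ℝ] EuclideanSpace ℝ (Fin k) :=
    LinearMap.toContinuousLinearMap (L₀ ∘ₗ D.projectionOnto D' hD')
  let s : EuclideanSpace ℝ (Fin k) →L[ℝ] D :=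
    LinearMap.toContinuousLinearMap (Q.subtype ∘ₗ e.symm.toLinearMap)
  have hPQ : ∀ q : Q, P (q : D) = q := fun q => Submodule.projectionOnto_apply_left hQ.symm q
  have hP0 : ∀ u : D, P u = 0 ↔ u ∈ K := fun u =>
    Submodule.projectionOnto_apply_eq_zero_iff hQ.symm
  have hLe : ∀ u : D, L (u : X) = e (P u) := by
    intro u
    show e (P (D.projectionOnto D' hD' (u : X))) = e (P u)
    rw [Submodule.projectionOnto_apply_left hD' u]
  have hse : ∀ c, s c = ((e.symm c : Q) : D) := fun c => rfl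
  have hLs : ∀ c, L (s c : X) = c := by
    intro c
    rw [hLe, hse, hPQ, LinearEquiv.apply_symm_apply]
  have hsL : ∀ u : D, u - s (L (u : X)) ∈ K := by
    intro u
    rw [hse, hLe, LinearEquiv.symm_apply_apply, ← hP0, map_sub, hPQ, sub_self]
  have hLK : ∀ u : D, u ∈ K → L (u : X) = 0 := by
    intro u hu
    rw [hLe, (hP0 u).mpr hu, map_zero]
  have hsub : ∀ x y : X, x ∈ V → y ∈ V → x - y ∈ D := fun x y hx hy =>
    AffineSubspace.vsub_mem_direction (hVY x hx) (hVY y hy)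
  have haddY : ∀ u : D, v₀ + (u : X) ∈ Y := by
    intro u
    have := AffineSubspace.vadd_mem_of_mem_direction u.2 (hVY v₀ hv₀)
    rwa [vadd_eq_add, add_comm] at this
  refine ⟨k, L, ‖s‖, ?_, ?_⟩
  · intro c
    set c' := c - L v₀ with hc'
    refine ⟨r (v₀ + (s c' : X)), hrV _, ?_⟩
    have h1 : (⟨r (v₀ + (s c' : X)) - v₀, hsub _ _ (hrV _) hv₀⟩ : D) - s c' ∈ K := by
      rw [hK]
      intro φ hφ
      rw [Submodule.coe_sub, map_sub]
      simp only [map_sub]
      rw [hφ _ (haddY (s c')), map_add]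
      ring
    have h2 := hLK _ h1
    rw [Submodule.coe_sub, map_sub, hLs, sub_eq_zero] at h2
    have h3 : L (r (v₀ + (s c' : X))) - L v₀ = c' := by
      rw [← map_sub]
      exact h2
    rw [hc'] at h3
    exact sub_left_injective h3
  · intro x y hx hy
    set u : D := ⟨x - y, hsub _ _ hx hy⟩ with hu
    obtain ⟨φ, hφn, hφ⟩ := pres_fixed hr hx hy
    have h1 := (hK _).mp (hsL u) φ hφ
    rw [Submodule.coe_sub, map_sub, sub_eq_zero] at h1
    have hux : (u : X) = x - y := rfl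
    have h2 : ‖x - y‖ = φ (s (L (x - y)) : D) := by
      rw [← hux, ← h1, hux, hφn.2]
    rw [h2, ← map_sub]
    calc φ (s (L (x - y)) : D) ≤ ‖((s (L (x - y)) : D) : X)‖ := le_norm_of_norm_le_one hφn.1 _
      _ = ‖s (L (x - y))‖ := by rw [Submodule.norm_coe]
      _ ≤ ‖s‖ * ‖L (x - y)‖ := s.le_opNorm _

end Pool.Agent.Lib.MP_769694_an
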